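import Pool.Agent.Helper80.Stack.Goals

set_option autoImplicit false

/-!
# FROMLD: from a layered decomposition to a stack layout (MP_d6b153_co)
-/

namespace Pool.Agent.Helper80.Stk

open Classical

noncomputable section

/-- The colours of edges used in `pf_FromLD`. -/
abbrev LDCol (q : ℕ) : Type := Option (Bool × Fin q) × (Fin 3 × Fin 3)

/-- The type part of the colour of an edge from node `m` to node `n`. -/
def ldTyp {q : ℕ} (Nm : ℕ → Finset ℕ) (col : ℕ → ℕ → Fin q) (m n : ℕ) : Option (Bool × Fin q) :=
  if n ∈ Nm m then some (true, col m n) else if m ∈ Nm n then some (false, col n m) else none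

theorem ldTyp_key {q : ℕ} {Nm : ℕ → Finset ℕ} {col : ℕ → ℕ → Fin q} {M : ℕ} {s : ℕ → ℕ}
    (hs : ∀ n m n' m', n < M → n' < M → m ∈ Nm n → m' ∈ Nm n' → col n m = col n' m' →
      s n < s n' → s m ≤ s m')
    {a b x y : ℕ} (ha : a < M) (hb : b < M) (hx : x < M) (hy : y < M)
    (hab : NAdj Nm a b) (hxy : NAdj Nm x y) (ht : ldTyp Nm col a b = ldTyp Nm col x y)
    (h1 : s a < s x) (h2 : s y < s b) : False := by
  unfold ldTyp at ht
  by_cases c1 : b ∈ Nm a
  · rw [if_pos c1] at ht
    by_cases d1 : y ∈ Nm x
    · rw [if_pos d1] at ht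
      simp only [Option.some.injEq, Prod.mk.injEq, true_and] at ht
      have := hs a b x y ha hx c1 d1 ht h1
      omega
    · rw [if_neg d1] at ht
      by_cases d2 : x ∈ Nm y
      · rw [if_pos d2] at ht
        simp at ht
      · rw [if_neg d2] at ht
        simp at ht
  · rw [if_neg c1] at ht
    by_cases c2 : a ∈ Nm b
    · rw [if_pos c2] at ht
      by_cases d1 : y ∈ Nm x
      · rw [if_pos d1] at ht
        simp at ht
      · rw [if_neg d1] at ht
        by_cases d2 : x ∈ Nm y
        · rw [if_pos d2] at ht
          simp only [Option.some.injEq, Prod.mk.injEq, true_and] at ht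
          have := hs y x b a hy hb d2 c2 ht.symm h2
          omega
        · rw [if_neg d2] at ht
          simp at ht
    · rw [if_neg c2] at ht
      have hab' : a = b := by
        rcases hab with h | h | h
        · exact h
        · exact absurd h c2
        · exact absurd h c1
      by_cases d1 : y ∈ Nm x
      · rw [if_pos d1] at ht
        simp at ht
      · rw [if_neg d1] at ht
        by_cases d2 : x ∈ Nm y
        · rw [if_pos d2] at ht
          simp at ht
        · have hxy' : x = y := by
            rcases hxy with h | h | h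
            · exact h
            · exact absurd h d2
            · exact absurd h d1
          subst hab'
          subst hxy'
          omega

/-- FROMLD. -/
theorem pf_FromLD (hB : StmtBlock) (hQ : StmtQueue) : StmtFromLD := by
  intro c
  obtain ⟨q, hq⟩ := hQ 3
  obtain ⟨k, hk⟩ := hB c (Fintype.card (LDCol q))
  refine ⟨k, ?_⟩
  intro V _ E ρ hρ hLD
  obtain ⟨M, Nm, nd, j, idx, hN, hM, hinj, hE⟩ := hLD
  obtain ⟨s, col, hsinj, hs⟩ := hq M Nm hN
  refine hk V E ρ j (fun v => 3 * s (nd v) + (idx v : ℕ))
    (fun a b => Fintype.equivFin (LDCol q) (ldTyp Nm col (nd a) (nd b), (idx a, idx b)))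
    hρ (fun a b h => (hE a b h).1) ?_ ?_
  · intro a b hj hσ
    have h1 := (idx a).isLt
    have h2 := (idx b).isLt
    have h3 : s (nd a) = s (nd b) := by
      omega
    have h4 : (idx a : ℕ) = (idx b : ℕ) := by
      omega
    exact hinj a b (hsinj _ (hM a) _ (hM b) h3) hj (Fin.ext h4)
  · intro a b x y hab hxy hc _ _ hlt
    have hc' := (Fintype.equivFin (LDCol q)).injective hc
    simp only [Prod.mk.injEq] at hc'
    obtain ⟨ht, hia, hib⟩ := hc'
    obtain ⟨h1, h2⟩ := hlt
    rw [hia] at h1
    rw [hib] at h2
    exact ldTyp_key hs (hM a) (hM b) (hM x) (hM y) (hE a b hab).2 (hE x y hxy).2 ht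
      (by omega) (by omega)

end

end Pool.Agent.Helper80.Stk
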